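import Mathlib

open Finset

namespace Pool.Agent.Results.MP_c73f8e_nt.Two

section
variable {G : Type*} [AddCommGroup G] [DecidableEq G] {A : Finset G} {s : ℕ} {m : G → Finset G}

structure Ctx (A : Finset G) (s : ℕ) (m : G → Finset G) : Prop where
  hs : 0 < s
  card : #A = 2 * s + 1
  inj : ∀ B ⊆ A, #B ≤ s → ∀ C ⊆ A, #C ≤ s → ∑ b ∈ B, b = ∑ b ∈ C, b → B = C
  sub : ∀ g, m g ⊆ A
  le : ∀ g, #(m g) ≤ s
  sum : ∀ g, ∑ b ∈ m g, b = g

def ψ (A X : Finset G) : G := 2 • ∑ b ∈ X, b - ∑ b ∈ A, b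

def sw (X : Finset G) (x u : G) : Finset G := insert u (X.erase x)

lemma sw_sum {X : Finset G} {x u : G} (hx : x ∈ X) (hu : u ∉ X) :
    ∑ b ∈ sw X x u, b = ∑ b ∈ X, b - x + u := by
  rw [sw, sum_insert (by simp [hu]), sum_erase_eq_sub hx, add_comm]

lemma sw_ψ {X : Finset G} {x u : G} (hx : x ∈ X) (hu : u ∉ X) :
    ψ A (sw X x u) = ψ A X - 2 • x + 2 • u := by
  rw [ψ, ψ, sw_sum hx hu]; abel

lemma sw_card {X : Finset G} {x u : G} (hx : x ∈ X) (hu : u ∉ X) : #(sw X x u) = #X := by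
  rw [sw, card_insert_of_notMem (by simp [hu]), card_erase_add_one hx]

lemma sw_sub {X B : Finset G} {x u : G} (hX : X ⊆ B) (hu : u ∈ B) : sw X x u ⊆ B :=
  insert_subset hu ((erase_subset _ _).trans hX)

lemma Ctx.big (h : Ctx A s m) {B C : Finset G} (hB : B ⊆ A) (hC : C ⊆ A) (hb : #B ≤ s)
    (e : ∑ b ∈ B, b = ∑ b ∈ C, b) (hne : B ≠ C) : s + 1 ≤ #(C \ B) := by
  by_contra hc
  have e1 := sum_inter_add_sum_sdiff B C id
  have e2 := sum_inter_add_sum_sdiff C B id
  simp only [id] at e1 e2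
  rw [inter_comm, ← e, ← e1, add_right_inj] at e2
  have := h.inj _ (sdiff_subset.trans hC) (by omega) _ (sdiff_subset.trans hB)
    ((card_le_card sdiff_subset).trans hb) e2
  refine hne (ext fun w => ?_)
  have := Finset.ext_iff.1 this w
  simp only [mem_sdiff] at this
  tauto

lemma Ctx.injL (h : Ctx A s m) {B C : Finset G} (hB : B ⊆ A) (hC : C ⊆ A) (hb : s < #B)
    (hc : s < #C) (e : ∑ b ∈ B, b = ∑ b ∈ C, b) : B = C := by
  have := h.card
  have := h.inj (A \ B) sdiff_subset (by rw [card_sdiff_of_subset hB]; omega) (A \ C) sdiff_subset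
    (by rw [card_sdiff_of_subset hC]; omega) (by rw [sum_sdiff_eq_sub hB, sum_sdiff_eq_sub hC, e])
  rw [← Finset.sdiff_sdiff_eq_self hB, this, Finset.sdiff_sdiff_eq_self hC]

lemma Ctx.msub (h : Ctx A s m) {X : Finset G} (hX : X ⊆ A) (hx : #X = s) : m (ψ A X) ⊆ X := by
  have hc : #(A \ X) = s + 1 := by rw [card_sdiff_of_subset hX, h.card]; omega
  have h1 := h.big (h.sub _) sdiff_subset (h.le _) (h.sum (∑ b ∈ A \ X, b)) (by
    intro e
    have := h.le (∑ b ∈ A \ X, b)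
    rw [e] at this
    omega)
  have h2 := eq_of_subset_of_card_le sdiff_subset (hc.le.trans h1)
  have h3 : m (∑ b ∈ A \ X, b) ⊆ X := by
    intro w hw
    by_contra hw'
    have : w ∈ A \ X := mem_sdiff.2 ⟨h.sub _ hw, hw'⟩
    rw [← h2] at this
    exact (mem_sdiff.1 this).2 hw
  rw [h.inj _ (h.sub _) (h.le _) (X \ m (∑ b ∈ A \ X, b)) (sdiff_subset.trans hX)
    ((card_le_card sdiff_subset).trans hx.le) (by
      rw [h.sum, sum_sdiff_eq_sub h3, h.sum, sum_sdiff_eq_sub hX, ψ]; abel)]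
  exact sdiff_subset

lemma Ctx.ex (h : Ctx A s m) {X : Finset G} (hX : X ⊆ A) (hx : #X = s) {x u : G}
    (h1 : x ∈ m (ψ A X)) (hu : u ∈ A) (hu' : u ∉ X) : u ∉ m (ψ A (sw X x u)) := by
  intro h2
  have x1 := h.msub hX hx h1
  have hX' : sw X x u ⊆ A := sw_sub hX hu
  have hx' : #(sw X x u) = s := (sw_card x1 hu').trans hx
  have := h.inj (X \ (m (ψ A X)).erase x) (sdiff_subset.trans hX)
    ((card_le_card sdiff_subset).trans hx.le) (sw X x u \ (m (ψ A (sw X x u))).erase u)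
    (sdiff_subset.trans hX') ((card_le_card sdiff_subset).trans hx'.le) (by
      rw [sum_sdiff_eq_sub ((erase_subset _ _).trans (h.msub hX hx)),
        sum_sdiff_eq_sub ((erase_subset _ _).trans (h.msub hX' hx')), sum_erase_eq_sub h1,
        sum_erase_eq_sub h2, h.sum, h.sum, sw_ψ x1 hu', sw_sum x1 hu']
      abel)
  have h3 : u ∈ X \ (m (ψ A X)).erase x := by rw [this]; simp [sw]
  exact hu' (mem_sdiff.1 h3).1

lemma Ctx.part (h : Ctx A s m) {y : G} (hy : y ∈ A) {X : Finset G} (hX : X ⊆ A.erase y)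
    (hx : #X = s) : #(A.erase y \ X) = s ∧ ∃ N ⊆ A.erase y, ∑ b ∈ N, b = -(2 • y) ∧
      m (ψ A X) = X ∩ N ∧ m (ψ A (A.erase y \ X)) = (A.erase y \ X) ∩ N := by
  have hz : #(A.erase y \ X) = s := by
    rw [card_sdiff_of_subset hX, card_erase_of_mem hy, h.card]; omega
  have h1 := h.msub (hX.trans (erase_subset _ _)) hx
  have h2 := h.msub (sdiff_subset.trans (erase_subset _ _)) hz
  refine ⟨hz, _, union_subset (h1.trans hX) (h2.trans sdiff_subset), ?_, ?_, ?_⟩
  · rw [sum_union (disjoint_sdiff.mono h1 h2), h.sum, h.sum, ψ, ψ, sum_sdiff_eq_sub hX,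
      sum_erase_eq_sub hy]
    abel
  · ext w
    have := @h1 w
    have := @h2 w
    simp only [mem_inter, mem_union, mem_sdiff] at *
    tauto
  · ext w
    have := @h1 w
    have := @h2 w
    simp only [mem_inter, mem_union, mem_sdiff] at *
    tauto

lemma Ctx.noL (h : Ctx A s m) {y : G} (hy : y ∈ A) {X Z L S : Finset G} (hX : X ⊆ A.erase y)
    (hZ : Z ⊆ A.erase y) (hx : #X = s) (hz : #Z = s) (hd : Disjoint X Z)
    (mX : m (ψ A X) = X ∩ L) (mZ : m (ψ A Z) = Z ∩ L)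
    (D : ∀ V ⊆ A.erase y, #V = s → m (ψ A V) = V ∩ S ∨ m (ψ A V) = V ∩ L)
    (hPQ : s + 1 ≤ #(X ∩ (L \ S)) + #(Z ∩ (L \ S))) (hle : #(Z ∩ (L \ S)) ≤ #(X ∩ (L \ S))) :
    False := by
  have XA := hX.trans (erase_subset _ _)
  have ZA := hZ.trans (erase_subset _ _)
  have nd : ∀ z ∈ Z, z ∉ X := fun z hz hx => disjoint_left.1 hd hx hz
  have E : ∀ x ∈ X ∩ (L \ S), ∀ z ∈ Z ∩ (L \ S),
      ∑ b ∈ X ∩ S, b = ψ A X - 2 • x + 2 • z := by
    intro x hx' z hz'
    simp only [mem_inter, mem_sdiff] at hx' hz'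
    have h1 := h.ex XA hx (x := x) (by rw [mX]; exact mem_inter.2 ⟨hx'.1, hx'.2.1⟩) (ZA hz'.1)
      (nd z hz'.1)
    rcases D _ (sw_sub (x := x) hX (hZ hz'.1)) ((sw_card hx'.1 (nd z hz'.1)).trans hx) with e | e
    · rw [← sw_ψ hx'.1 (nd z hz'.1), ← h.sum (ψ A (sw X x z)), e]
      congr 1
      ext w
      simp only [sw, mem_inter, mem_insert, mem_erase]
      constructor
      · rintro ⟨a, b⟩; exact ⟨.inr ⟨by rintro rfl; exact hx'.2.2 b, a⟩, b⟩
      · rintro ⟨rfl | a, b⟩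
        · exact absurd b hz'.2.2
        · exact ⟨a.2, b⟩
    · exact absurd (by rw [e]; exact mem_inter.2 ⟨by simp [sw], hz'.2.1⟩) h1
  have cP : #(X ∩ (L \ S)) ≤ s := (card_le_card inter_subset_left).trans hx.le
  by_cases hQ : 1 < #(Z ∩ (L \ S))
  · obtain ⟨z, hz1, z', hz2, zz⟩ := one_lt_card.1 hQ
    obtain ⟨x, hx1, x', hx2, xx⟩ := one_lt_card.1 (hQ.trans_le hle)
    have E1 := E x hx1 z hz1
    have E2 := E x' hx2 z' hz2
    simp only [mem_inter, mem_sdiff] at hx1 hx2 hz1 hz2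
    have a1 : x' ∈ sw X x z := by simp [sw, xx.symm, hx2.1]
    have a2 : z' ∉ sw X x z := by simp [sw, zz.symm, nd z' hz2.1]
    have a3 := h.sum (ψ A (sw (sw X x z) x' z'))
    have a4 := h.sum (ψ A X)
    rw [mX] at a4
    rcases D _ (sw_sub (x := x') (sw_sub (x := x) hX (hZ hz1.1)) (hZ hz2.1))
      ((sw_card a1 a2).trans ((sw_card hx1.1 (nd z hz1.1)).trans hx)) with e | e
    · have : sw (sw X x z) x' z' ∩ S = X ∩ S := by
        ext w
        simp only [sw, mem_inter, mem_insert, mem_erase]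
        constructor
        · rintro ⟨rfl | ⟨-, rfl | a⟩, b⟩
          · exact absurd b hz2.2.2
          · exact absurd b hz1.2.2
          · exact ⟨a.2, b⟩
        · rintro ⟨a, b⟩
          exact ⟨.inr ⟨by rintro rfl; exact hx2.2.2 b, .inr ⟨by rintro rfl; exact hx1.2.2 b, a⟩⟩, b⟩
      rw [e, this, sw_ψ a1 a2, sw_ψ hx1.1 (nd z hz1.1), ← E1] at a3
      have b1 : ∑ b ∈ X ∩ S, b = ∑ b ∈ X ∩ L, b := by
        rw [a4]; linear_combination (norm := abel) E2 - a3
      have b2 := h.inj _ (inter_subset_left.trans XA) ((card_le_card inter_subset_left).trans hx.le)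
        _ (inter_subset_left.trans XA) ((card_le_card inter_subset_left).trans hx.le) b1
      have : x ∈ X ∩ S := by rw [b2]; exact mem_inter.2 ⟨hx1.1, hx1.2.1⟩
      exact hx1.2.2 (mem_inter.1 this).2
    · have c1 : x ∈ X ∩ L := mem_inter.2 ⟨hx1.1, hx1.2.1⟩
      have c2 : z ∉ X ∩ L := fun a => nd z hz1.1 (mem_inter.1 a).1
      have : sw (sw X x z) x' z' ∩ L = sw (sw (X ∩ L) x z) x' z' := by
        ext w
        simp only [sw, mem_inter, mem_insert, mem_erase]
        constructor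
        · tauto
        · rintro (rfl | ⟨a, rfl | b⟩)
          · exact ⟨.inl rfl, hz2.2.1⟩
          · exact ⟨.inr ⟨a, .inl rfl⟩, hz1.2.1⟩
          · exact ⟨.inr ⟨a, .inr ⟨b.1, b.2.1⟩⟩, b.2.2⟩
      rw [e, this, sw_ψ a1 a2, sw_ψ hx1.1 (nd z hz1.1),
        sw_sum (by simp [sw, xx.symm, hx2.1, hx2.2.1]) (by simp [sw, zz.symm, nd z' hz2.1]),
        sw_sum c1 c2, a4] at a3
      have b2 := h.inj {x, x'} (by simp [insert_subset_iff, XA hx1.1, XA hx2.1])
        (by rw [card_pair xx]; omega) {z, z'} (by simp [insert_subset_iff, ZA hz1.1, ZA hz2.1])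
        (by rw [card_pair zz]; omega) (by
          rw [sum_pair xx, sum_pair zz]; linear_combination (norm := abel) a3)
      have : z ∈ ({x, x'} : Finset G) := by rw [b2]; simp
      rcases mem_insert.1 this with rfl | a
      · exact nd _ hz1.1 hx1.1
      · rw [mem_singleton.1 a] at hz1; exact nd _ hz1.1 hx2.1
  · obtain ⟨z, hz1⟩ := card_pos.1 (show 0 < #(Z ∩ (L \ S)) by omega)
    have hP : X ∩ (L \ S) = X := eq_of_subset_of_card_le inter_subset_left (by omega)
    have hLS : ∀ w ∈ X, w ∈ L ∧ w ∉ S := fun w hw => by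
      rw [← hP] at hw; exact mem_sdiff.1 (mem_inter.1 hw).2
    have hS : X ∩ S = ∅ := eq_empty_of_forall_notMem fun w hw =>
      (hLS w (mem_inter.1 hw).1).2 (mem_inter.1 hw).2
    rw [hP, hS, sum_empty] at E
    obtain ⟨x, hx1⟩ := card_pos.1 (show 0 < #X by have := h.hs; omega)
    have yX : y ∉ X := fun a => by simpa using hX a
    have yZ : y ∉ Z := fun a => by simpa using hZ a
    have e0 : m (ψ A (sw X x y)) = ∅ := by
      refine eq_empty_of_forall_notMem fun w hw => ?_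
      have w1 := h.msub (sw_sub XA hy) ((sw_card hx1 yX).trans hx) hw
      rcases mem_insert.1 w1 with rfl | w2
      · exact h.ex XA hx (by rw [mX]; exact mem_inter.2 ⟨hx1, (hLS x hx1).1⟩) hy yX hw
      · have w3 := (mem_erase.1 w2).2
        have : ψ A (sw X x y) = ψ A (sw X w y) := by
          rw [sw_ψ hx1 yX, sw_ψ w3 yX]
          linear_combination (norm := abel) E w w3 z hz1 - E x hx1 z hz1
        rw [this] at hw
        have := h.msub (sw_sub XA hy) ((sw_card w3 yX).trans hx) hw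
        simp only [sw, mem_insert, mem_erase, ne_eq, not_true_eq_false, false_and, or_false] at this
        exact yX (this ▸ w3)
    have e1 := h.sum (ψ A (sw X x y))
    rw [e0, sum_empty, sw_ψ hx1 yX] at e1
    have z1 := (mem_inter.1 hz1).1
    have e2 : ψ A (sw Z z y) = ψ A Z := by
      rw [sw_ψ z1 yZ]; linear_combination (norm := abel) E x hx1 z hz1 - e1
    have e3 : z ∈ m (ψ A (sw Z z y)) := by
      rw [e2, mZ]; exact mem_inter.2 ⟨z1, (mem_sdiff.1 (mem_inter.1 hz1).2).1⟩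
    have := h.msub (sw_sub ZA hy) ((sw_card z1 yZ).trans hz) e3
    simp only [sw, mem_insert, mem_erase, ne_eq, not_true_eq_false, false_and, or_false] at this
    exact yZ (this ▸ z1)

lemma Ctx.onlyS (h : Ctx A s m) {y : G} (hy : y ∈ A) {X : Finset G} (hX : X ⊆ A.erase y)
    (hx : #X = s) : m (-(2 • y)) ⊆ A.erase y ∧ m (ψ A X) = X ∩ m (-(2 • y)) := by
  obtain ⟨hz, L, hL, sL, mX, mZ⟩ := h.part hy hX hx
  by_cases e : m (-(2 • y)) = L
  · rw [e]; exact ⟨hL, mX⟩
  have LA := hL.trans (erase_subset _ _)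
  have b := h.big (h.sub _) LA (h.le _) ((h.sum _).trans sL.symm) e
  have D : ∀ V ⊆ A.erase y, #V = s →
      m (ψ A V) = V ∩ m (-(2 • y)) ∨ m (ψ A V) = V ∩ L := by
    intro V hV hv
    obtain ⟨-, N, hN, sN, mV, -⟩ := h.part hy hV hv
    have NA := hN.trans (erase_subset _ _)
    rcases le_or_gt #N s with c | c
    · left; rw [mV, h.inj _ NA c _ (h.sub _) (h.le _) (sN.trans (h.sum _).symm)]
    · right
      rw [mV, h.injL NA LA c (b.trans (card_le_card sdiff_subset)) (sN.trans sL.symm)]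
  have c : s + 1 ≤ #(X ∩ (L \ m (-(2 • y)))) + #((A.erase y \ X) ∩ (L \ m (-(2 • y)))) := by
    refine b.trans ((card_le_card ?_).trans (card_union_le _ _))
    rw [← union_inter_distrib_right, union_sdiff_of_subset hX]
    exact subset_inter (sdiff_subset.trans hL) subset_rfl
  exfalso
  rcases le_total #((A.erase y \ X) ∩ (L \ m (-(2 • y)))) #(X ∩ (L \ m (-(2 • y)))) with d | d
  · exact h.noL hy hX sdiff_subset hx hz disjoint_sdiff mX mZ D c d
  · exact h.noL hy sdiff_subset hX hz hx disjoint_sdiff.symm mZ mX D (by omega) d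

lemma Ctx.pick (h : Ctx A s m) {y z x : G} (hx : x ∈ A) (h1 : x ≠ y) (h2 : x ≠ z) :
    ∃ X, x ∈ X ∧ z ∉ X ∧ X ⊆ A.erase y ∧ X ⊆ A.erase z ∧ #X = s := by
  have := h.hs
  have := h.card
  have := pred_card_le_card_erase (s := A) (a := y)
  have := pred_card_le_card_erase (s := A.erase y) (a := z)
  obtain ⟨X, a, b, c⟩ := exists_subsuperset_card_eq (s := {x}) (t := (A.erase y).erase z) (n := s)
    (by simp [hx, h1, h2]) (by simp; omega) (by omega)
  exact ⟨X, a (mem_singleton_self x), fun e => by simpa using b e, b.trans (erase_subset _ _),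
    b.trans (erase_subset_erase _ (erase_subset _ _)), c⟩

lemma Ctx.Ssub (h : Ctx A s m) {y : G} (hy : y ∈ A) : m (-(2 • y)) ⊆ A.erase y := by
  obtain ⟨X, a, b⟩ := exists_subset_card_eq (s := A.erase y) (n := s) (by
    rw [card_erase_of_mem hy, h.card]; omega)
  exact (h.onlyS hy a b).1

lemma Ctx.single (h : Ctx A s m) {y₀ x y : G} (hy₀ : y₀ ∈ A) (hx : x ∈ m (-(2 • y₀)))
    (hy : y ∈ A) (hne : x ≠ y) : m (-(2 • y)) = {x} := by
  have x1 := mem_erase.1 (h.Ssub hy₀ hx)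
  obtain ⟨X, a, -, b, c, d⟩ := h.pick x1.2 x1.1 hne
  have x2 : x ∈ m (-(2 • y)) := by
    have : x ∈ m (ψ A X) := by rw [(h.onlyS hy₀ b d).2]; exact mem_inter.2 ⟨a, hx⟩
    rw [(h.onlyS hy c d).2] at this
    exact (mem_inter.1 this).2
  refine eq_singleton_iff_unique_mem.2 ⟨x2, fun z hz => ?_⟩
  by_contra e
  obtain ⟨V, a, a', b, -, d⟩ := h.pick x1.2 hne (Ne.symm e)
  have z1 := h.Ssub hy hz
  refine h.ex (b.trans (erase_subset _ _)) d (x := x) ?_ (mem_erase.1 z1).2 a' ?_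
  · rw [(h.onlyS hy b d).2]; exact mem_inter.2 ⟨a, x2⟩
  · rw [(h.onlyS hy (sw_sub b z1) ((sw_card a a').trans d)).2]
    exact mem_inter.2 ⟨by simp [sw], hz⟩

lemma Ctx.dbl (h : Ctx A s m) : ∃ t : G, 2 • t = 0 ∧ ∀ g : G, 2 • g = 0 ∨ 2 • g = t := by
  suffices ∃ t : G, 2 • t = 0 ∧ ∀ g ∈ A, 2 • g = 0 ∨ 2 • g = t by
    obtain ⟨t, ht, H⟩ := this
    refine ⟨t, ht, fun g => ?_⟩
    rw [← h.sum g]
    refine sum_induction _ (fun g : G => 2 • g = 0 ∨ 2 • g = t) ?_ (by simp)
      fun x hx => H x (h.sub _ hx)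
    rintro a b (ha | ha) (hb | hb) <;> rw [smul_add, ha, hb]
    · simp
    · simp
    · simp
    · left; rw [← two_nsmul, ht]
  have z : ∀ y, m (-(2 • y)) = ∅ → 2 • y = 0 := fun y e => by
    have := h.sum (-(2 • y))
    rw [e, sum_empty] at this
    exact neg_eq_zero.1 this.symm
  by_cases e : ∀ y ∈ A, m (-(2 • y)) = ∅
  · exact ⟨0, by simp, fun y hy => .inl (z y (e y hy))⟩
  push Not at e
  obtain ⟨y₀, hy₀, x, hx⟩ := e
  have xA := h.sub _ hx
  have x0 : 2 • x = 0 := by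
    refine z x (eq_empty_of_forall_notMem fun w hw => ?_)
    obtain ⟨y, hy⟩ := card_pos.1 (show 0 < #((A.erase x).erase w) by
      have := h.hs
      have := h.card
      have := pred_card_le_card_erase (s := A) (a := x)
      have := pred_card_le_card_erase (s := A.erase x) (a := w)
      omega)
    simp only [mem_erase] at hy
    have := (h.single hy₀ hx hy.2.2 hy.2.1.symm).symm.trans (h.single xA hw hy.2.2 hy.1.symm)
    exact (mem_erase.1 (h.Ssub xA hw)).1 (singleton_injective this).symm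
  refine ⟨x, x0, fun y hy => ?_⟩
  by_cases c : x = y
  · exact .inl (c ▸ x0)
  · have := h.sum (-(2 • y))
    rw [h.single hy₀ hx hy c, sum_singleton] at this
    right
    linear_combination (norm := abel) this - x0

end

lemma elem {K : Type*} [AddCommGroup K] [Finite K] (h : ∀ x : K, 2 • x = 0) {n : ℕ}
    (hn : Nat.card K = 2 ^ n) : Nonempty (K ≃+ (Fin n → ZMod 2)) := by
  let : Module (ZMod 2) K := AddCommGroup.zmodModule h
  have := Module.natCard_eq_pow_finrank (K := ZMod 2) (V := K)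
  rw [hn, Nat.card_zmod] at this
  exact ⟨(LinearEquiv.ofFinrankEq (R := ZMod 2) K (Fin n → ZMod 2) (by
    rw [Module.finrank_fin_fun]; exact (Nat.pow_right_injective le_rfl this).symm)).toAddEquiv⟩

lemma four {G : Type*} [AddCommGroup G] [Finite G] {g : G} (h0 : 2 • g ≠ 0) (h4 : 2 • 2 • g = 0)
    (H : ∀ x : G, 2 • x = 0 ∨ 2 • x = 2 • g) {n : ℕ} (hn : Nat.card G = 2 ^ n) :
    Nonempty (G ≃+ (Fin (n - 2) → ZMod 2) × ZMod 4) := by
  let K : AddSubgroup G := (nsmulAddMonoidHom 2).ker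
  have hK : ∀ x : K, 2 • x = 0 := fun x => Subtype.ext x.2
  let : Module (ZMod 2) K := AddCommGroup.zmodModule hK
  let t : K := ⟨2 • g, h4⟩
  obtain ⟨φ, hφ⟩ : ∃ φ : Module.Dual (ZMod 2) K, φ t ≠ 0 := by
    by_contra c
    push Not at c
    exact h0 (congrArg Subtype.val ((Module.forall_dual_apply_eq_zero_iff _ t).1 c))
  have two : ∀ a : ZMod 2, a ≠ 0 → a = 1 := by decide
  let c : ZMod 4 →+ G := ZMod.lift 4 ⟨zmultiplesHom G g, by
    rw [zmultiplesHom_apply, natCast_zsmul, show 4 = 2 * 2 from rfl, mul_smul, h4]⟩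
  have hc : ∀ k : ℕ, c k = k • g := fun k => by
    rw [← Int.cast_natCast, ZMod.lift_coe]; simp
  let F : φ.toAddMonoidHom.ker × ZMod 4 →+ G :=
    (K.subtype.comp φ.toAddMonoidHom.ker.subtype).coprod c
  have hF : ∀ k (a : ℕ), F (k, a) = k.1.1 + a • g := fun k a => by rw [← hc]; rfl
  have bij : Function.Bijective F := by
    constructor
    · rw [injective_iff_map_eq_zero]
      rintro ⟨k, a⟩ e
      rw [← ZMod.natCast_zmod_val a, hF] at e
      have k2 : 2 • k.1.1 = 0 := k.1.2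
      have k0 : φ k.1 = 0 := k.2
      have := ZMod.val_lt a
      rw [← ZMod.natCast_zmod_val a]
      generalize a.val = i at *
      interval_cases i
      · rw [zero_smul, add_zero] at e
        exact Prod.ext (Subtype.ext (Subtype.ext e)) rfl
      · exact absurd (by linear_combination (norm := abel) 2 • e - k2) h0
      · have : k.1 + t = 0 := Subtype.ext e
        have := congrArg φ this
        rw [map_add, k0, zero_add, map_zero] at this
        exact absurd this hφ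
      · exact absurd (by linear_combination (norm := abel) 2 • e - k2 - h4) h0
    · have sK : ∀ x : K, ∃ k, ∃ a : ℕ, x.1 = F (k, a) := fun x => by
        by_cases e : φ x = 0
        · exact ⟨⟨x, e⟩, 0, by rw [hF]; simp⟩
        · refine ⟨⟨x - t, ?_⟩, 2, by rw [hF]; simp [t]⟩
          change φ (x - t) = 0
          rw [map_sub, two _ e, two _ hφ, sub_self]
      intro x
      rcases H x with e | e
      · obtain ⟨k, a, b⟩ := sK ⟨x, e⟩
        exact ⟨_, b.symm⟩
      · obtain ⟨k, a, b⟩ := sK ⟨x - g, show 2 • (x - g) = 0 by rw [smul_sub, e, sub_self]⟩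
        refine ⟨(k, (a + 1 : ℕ)), ?_⟩
        rw [hF] at b ⊢
        rw [add_smul, one_smul, ← add_assoc, ← b, sub_add_cancel]
  have cd := Nat.card_eq_of_bijective F bij
  rw [Nat.card_prod, Nat.card_zmod, hn] at cd
  have n2 : 2 ≤ n := (Nat.pow_dvd_pow_iff_le_right one_lt_two).1 ⟨_, cd.symm.trans (mul_comm _ _)⟩
  obtain ⟨e⟩ := elem (K := φ.toAddMonoidHom.ker) (fun x => Subtype.ext (hK x.1)) (n := n - 2) (by
    obtain ⟨j, rfl⟩ := Nat.exists_eq_add_of_le' n2
    rw [pow_add] at cd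
    exact Nat.eq_of_mul_eq_mul_right (by norm_num) cd)
  exact ⟨(AddEquiv.ofBijective F bij).symm.trans (e.prodCongr (AddEquiv.refl _))⟩

theorem result (s : ℕ) (hs : 0 < s) (G : Type*) [AddCommGroup G] [Finite G]
    (hG : Nat.card G = 2 ^ (2 * s)) (A : Finset G) (hA : A.card = 2 * s + 1)
    (h : Set.BijOn (fun B : Finset G => ∑ b ∈ B, b) {B | B ⊆ A ∧ B.card ≤ s} Set.univ) :
    Nonempty (G ≃+ (Fin (2 * s) → ZMod 2)) ∨
      Nonempty (G ≃+ (Fin (2 * s - 2) → ZMod 2) × ZMod 4) := by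
  classical
  choose m hm hm' using fun g => h.surjOn (Set.mem_univ g)
  obtain ⟨t, ht, H⟩ := Ctx.dbl (A := A) (s := s) (m := m) ⟨hs, hA,
    fun B a b C c d e => h.injOn ⟨a, b⟩ ⟨c, d⟩ e, fun g => (hm g).1, fun g => (hm g).2, hm'⟩
  by_cases e : ∀ g : G, 2 • g = 0
  · exact .inl (elem e hG)
  push Not at e
  obtain ⟨g, hg⟩ := e
  obtain rfl := (H g).resolve_left hg
  exact .inr (four hg ht H hG)

end Pool.Agent.Results.MP_c73f8e_nt.Two
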